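import Mathlib

/-!
A lower bound for the trace of an integral matrix `M` with `M² = qM` which has rank one modulo `p`.
-/

set_option autoImplicit false
set_option maxHeartbeats 4000000

open scoped BigOperators

namespace Pool.Agent.Helper98.KB

section bilin

variable {ι : Type*} [Fintype ι]

/-- `2 yᵀAz ≤ q (|y|² + |z|²)` for a symmetric matrix with `A² = qA` -/
lemma bilin {q : ℝ} (hq : 0 < q) (A : ι → ι → ℝ) (hsym : ∀ i j, A i j = A j i)
    (hsq : ∀ i j, ∑ k, A i k * A k j = q * A i j) (y z : ι → ℝ) :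
    2 * ∑ i, ∑ j, y i * A i j * z j ≤ q * (∑ i, y i ^ 2 + ∑ j, z j ^ 2) := by
  set w : ι → ℝ := fun i => ∑ j, A i j * z j with hw
  have h1 : ∑ i, ∑ j, y i * A i j * z j = ∑ i, y i * w i := by
    refine Finset.sum_congr rfl fun i _ => ?_
    rw [hw, Finset.mul_sum]
    exact Finset.sum_congr rfl fun j _ => by ring
  have h2 : ∑ i, w i ^ 2 = q * ∑ i, z i * w i := by
    have e1 : ∀ i, w i ^ 2 = ∑ j, ∑ k, z j * z k * (A j i * A i k) := by
      intro i
      rw [pow_two, hw]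
      simp only
      rw [Finset.sum_mul_sum]
      refine Finset.sum_congr rfl fun j _ => Finset.sum_congr rfl fun k _ => ?_
      rw [hsym i j]
      ring
    rw [Finset.sum_congr rfl fun i _ => e1 i, Finset.sum_comm, Finset.mul_sum]
    refine Finset.sum_congr rfl fun j _ => ?_
    rw [Finset.sum_comm]
    simp only [hw]
    rw [Finset.mul_sum, Finset.mul_sum]
    refine Finset.sum_congr rfl fun k _ => ?_
    rw [← Finset.mul_sum, hsq]
    ring
  have h3 : ∑ i, (q * y i - w i) ^ 2 + ∑ i, (q * z i - w i) ^ 2 =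
      q * (q * (∑ i, y i ^ 2 + ∑ j, z j ^ 2) - 2 * ∑ i, y i * w i) := by
    have e1 : ∑ i, (q * y i - w i) ^ 2 =
        q ^ 2 * ∑ i, y i ^ 2 - 2 * q * ∑ i, y i * w i + ∑ i, w i ^ 2 := by
      rw [Finset.mul_sum, Finset.mul_sum, ← Finset.sum_sub_distrib, ← Finset.sum_add_distrib]
      exact Finset.sum_congr rfl fun i _ => by ring
    have e2 : ∑ i, (q * z i - w i) ^ 2 =
        q ^ 2 * ∑ i, z i ^ 2 - 2 * q * ∑ i, z i * w i + ∑ i, w i ^ 2 := by
      rw [Finset.mul_sum, Finset.mul_sum, ← Finset.sum_sub_distrib, ← Finset.sum_add_distrib]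
      exact Finset.sum_congr rfl fun i _ => by ring
    rw [e1, e2, h2]
    ring
  have h4 : 0 ≤ q * (q * (∑ i, y i ^ 2 + ∑ j, z j ^ 2) - 2 * ∑ i, y i * w i) := by
    rw [← h3]
    exact add_nonneg (Finset.sum_nonneg fun i _ => sq_nonneg _)
      (Finset.sum_nonneg fun i _ => sq_nonneg _)
  have h5 := nonneg_of_mul_nonneg_right h4 hq
  rw [h1]
  linarith

end bilin

/-- the weight -/
noncomputable def phi (p : ℕ) (a : ℤ) : ℝ := max 0 (1 - (a : ℝ) ^ 2 / p)

lemma phi_nonneg (p : ℕ) (a : ℤ) : 0 ≤ phi p a := le_max_left _ _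

lemma phi_le_one (p : ℕ) (a : ℤ) : phi p a ≤ 1 := by
  refine max_le zero_le_one ?_
  have : 0 ≤ (a : ℝ) ^ 2 / p := by positivity
  linarith

lemma le_phi (p : ℕ) (a : ℤ) : 1 - (a : ℝ) ^ 2 / p ≤ phi p a := le_max_right _ _

/-- the estimate of a term -/
lemma term {p : ℕ} (hp : 0 < p) {x c a b : ℤ} (hx : x ≠ 0) (hc : c ≠ 0) (ha : a ≠ 0) (hb : b ≠ 0)
    (hd : (p : ℤ) ∣ x * c - a * b) :
    phi p a * phi p b * |(x : ℝ)| - 2 * |(c : ℝ)| / p * (x : ℝ) ^ 2 ≤
      (SignType.sign (c : ℝ) : ℝ) * ((phi p a * (SignType.sign (a : ℝ) : ℝ)) * x *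
        (phi p b * (SignType.sign (b : ℝ) : ℝ))) := by
  have hpR : (0 : ℝ) < p := by exact_mod_cast hp
  have hxR : (x : ℝ) ≠ 0 := by exact_mod_cast hx
  have hcR : (c : ℝ) ≠ 0 := by exact_mod_cast hc
  have haR : (a : ℝ) ≠ 0 := by exact_mod_cast ha
  have hbR : (b : ℝ) ≠ 0 := by exact_mod_cast hb
  have hsg : ∀ t : ℝ, t ≠ 0 → (SignType.sign t : ℝ) = t / |t| := by
    intro t ht
    rcases lt_or_gt_of_ne ht with h | h
    · rw [sign_neg h, abs_of_neg h]
      simp
      field_simp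
    · rw [sign_pos h, abs_of_pos h]
      simp
      field_simp
  have hnn : 0 ≤ 2 * |(c : ℝ)| / p * (x : ℝ) ^ 2 := by positivity
  have hA : 0 < |(a : ℝ)| := abs_pos.mpr haR
  have hB : 0 < |(b : ℝ)| := abs_pos.mpr hbR
  have hC : 0 < |(c : ℝ)| := abs_pos.mpr hcR
  have hX : 0 < |(x : ℝ)| := abs_pos.mpr hxR
  have hrw : (SignType.sign (c : ℝ) : ℝ) * ((phi p a * (SignType.sign (a : ℝ) : ℝ)) * x *
        (phi p b * (SignType.sign (b : ℝ) : ℝ))) =
      phi p a * phi p b * (((x : ℝ) * c) * (a * b) / (|(a : ℝ)| * |(b : ℝ)| * |(c : ℝ)|)) := by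
    rw [hsg _ haR, hsg _ hbR, hsg _ hcR]
    field_simp
  rw [hrw]
  have habs : |((x : ℝ) * c) * (a * b)| = |(x : ℝ)| * (|(a : ℝ)| * |(b : ℝ)| * |(c : ℝ)|) := by
    rw [abs_mul, abs_mul, abs_mul]
    ring
  have hφ : 0 ≤ phi p a * phi p b := mul_nonneg (phi_nonneg _ _) (phi_nonneg _ _)
  rcases lt_or_ge (((x : ℝ) * c) * (a * b)) 0 with hneg | hpos
  · have h1 : ((x : ℝ) * c) * (a * b) / (|(a : ℝ)| * |(b : ℝ)| * |(c : ℝ)|) = - |(x : ℝ)| := by
      rw [abs_of_neg hneg] at habs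
      rw [div_eq_iff (by positivity)]
      linarith
    rw [h1]
    -- need `φφ |x| ≤ |c| x² / p`
    have key : phi p a * phi p b ≤ |(x : ℝ)| * |(c : ℝ)| / p := by
      by_cases h0 : phi p a = 0 ∨ phi p b = 0
      · have : phi p a * phi p b = 0 := by
          rcases h0 with h0 | h0 <;> rw [h0] <;> simp
        rw [this]
        positivity
      · push Not at h0
        have ea : phi p a = 1 - (a : ℝ) ^ 2 / p := by
          rcases max_choice (0 : ℝ) (1 - (a : ℝ) ^ 2 / p) with h | h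
          · exact absurd h h0.1
          · exact h
        have eb : phi p b = 1 - (b : ℝ) ^ 2 / p := by
          rcases max_choice (0 : ℝ) (1 - (b : ℝ) ^ 2 / p) with h | h
          · exact absurd h h0.2
          · exact h
        -- the integers
        have hnegZ : (x * c) * (a * b) < 0 := by exact_mod_cast hneg
        have hne : x * c - a * b ≠ 0 := by
          intro h
          have : x * c = a * b := by linarith
          rw [this] at hnegZ
          nlinarith [mul_self_nonneg (a * b)]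
        have hge : (p : ℤ) ≤ |x * c - a * b| := Int.le_of_dvd (abs_pos.mpr hne)
          ((dvd_abs _ _).mpr hd)
        have hge' : (p : ℝ) ≤ |(x : ℝ) * c - a * b| := by
          have : ((p : ℤ) : ℝ) ≤ ((|x * c - a * b| : ℤ) : ℝ) := by exact_mod_cast hge
          simpa using this
        have h2 : |(x : ℝ) * c - a * b| ≤ |(x : ℝ)| * |(c : ℝ)| + |(a : ℝ)| * |(b : ℝ)| := by
          calc |(x : ℝ) * c - a * b| ≤ |(x : ℝ) * c| + |(a : ℝ) * b| := abs_sub _ _
            _ = _ := by rw [abs_mul, abs_mul]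
        have h3 : |(a : ℝ)| * |(b : ℝ)| ≤ ((a : ℝ) ^ 2 + (b : ℝ) ^ 2) / 2 := by
          have := sq_nonneg (|(a : ℝ)| - |(b : ℝ)|)
          rw [sub_sq, sq_abs, sq_abs] at this
          linarith
        have h4 : 1 - ((a : ℝ) ^ 2 + (b : ℝ) ^ 2) / 2 / p ≤ |(x : ℝ)| * |(c : ℝ)| / p := by
          rw [sub_le_iff_le_add, ← add_div, le_div_iff₀ hpR]
          linarith
        have h5 : phi p a * phi p b ≤ (phi p a + phi p b) / 2 := by
          have h6 := phi_le_one p a
          have h7 := phi_le_one p b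
          have h8 := phi_nonneg p a
          have h9 := phi_nonneg p b
          nlinarith
        calc phi p a * phi p b ≤ (phi p a + phi p b) / 2 := h5
          _ = 1 - ((a : ℝ) ^ 2 + (b : ℝ) ^ 2) / 2 / p := by rw [ea, eb]; ring
          _ ≤ _ := h4
    have h2 : 2 * |(c : ℝ)| / p * (x : ℝ) ^ 2 = 2 * (|(x : ℝ)| * |(c : ℝ)| / p) * |(x : ℝ)| := by
      rw [← sq_abs (x : ℝ)]
      ring
    rw [h2]
    nlinarith [mul_le_mul_of_nonneg_right key hX.le]
  · have h1 : ((x : ℝ) * c) * (a * b) / (|(a : ℝ)| * |(b : ℝ)| * |(c : ℝ)|) = |(x : ℝ)| := by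
      rw [abs_of_nonneg hpos] at habs
      rw [div_eq_iff (by positivity)]
      linarith
    rw [h1]
    linarith

section main

variable {ι : Type*} [Fintype ι] [DecidableEq ι]

/-- the sum of squares is at least `p |H|² / 7` or `|H|² ≤ 7 q²` -/
theorem core {p q : ℕ} (hp : p.Prime) (hq : 0 < q) (M : ι → ι → ℤ)
    (hsym : ∀ i j, M i j = M j i) (hsq : ∀ i j, ∑ k, M i k * M k j = q * M i j)
    {K : Type*} [Field K] [CharP K p] (u s : ι → K) (hred : ∀ i j, (M i j : K) = u i * s j)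
    (H : Finset ι) (hu : ∀ i ∈ H, u i ≠ 0) (hs : ∀ i ∈ H, s i ≠ 0)
    (h7 : 7 * (q : ℝ) ^ 2 < (H.card : ℝ) ^ 2) :
    (p : ℝ) * (H.card : ℝ) ^ 2 ≤ 7 * ∑ i ∈ H, ∑ j ∈ H, (M i j : ℝ) ^ 2 := by
  classical
  by_contra hcon
  push Not at hcon
  have hp0 : 0 < p := hp.pos
  have hpR : (0 : ℝ) < p := by exact_mod_cast hp0
  have hqR : (0 : ℝ) < q := by exact_mod_cast hq
  set N : ℝ := ((H.card : ℕ) : ℝ) with hN
  set S : ℝ := ∑ i ∈ H, ∑ j ∈ H, (M i j : ℝ) ^ 2 with hS
  have hNpos : 0 < N := by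
    have h0 : 0 ≤ N := by rw [hN]; positivity
    rcases h0.lt_or_eq with h | h
    · exact h
    · rw [← h] at h7
      nlinarith [sq_nonneg (q : ℝ)]
  have hMne : ∀ i ∈ H, ∀ j ∈ H, M i j ≠ 0 := by
    intro i hi j hj h0
    have := hred i j
    rw [h0, Int.cast_zero] at this
    exact mul_ne_zero (hu i hi) (hs j hj) this.symm
  have hdvd : ∀ i j k l, (p : ℤ) ∣ M i j * M k l - M i l * M k j := by
    intro i j k l
    rw [← CharP.intCast_eq_zero_iff K p]
    push_cast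
    rw [hred, hred, hred, hred]
    ring
  -- the weights
  set φ : ι → ι → ℝ := fun i j => phi p (M i j) with hφ
  have φ0 : ∀ i j, 0 ≤ φ i j := fun i j => phi_nonneg _ _
  have φ1 : ∀ i j, φ i j ≤ 1 := fun i j => phi_le_one _ _
  have φs : ∀ i j, φ i j = φ j i := by
    intro i j
    simp only [hφ]
    rw [hsym]
  set a : ι → ℝ := fun l => ∑ i ∈ H, φ i l with ha
  have haN : ∀ l, a l ≤ N := by
    intro l
    calc a l ≤ ∑ _i ∈ H, (1 : ℝ) := Finset.sum_le_sum fun i _ => φ1 i l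
      _ = N := by simp [hN]
  have hb : ∑ i ∈ H, (N - a i) ≤ S / p := by
    have e1 : ∀ i ∈ H, N - a i ≤ ∑ j ∈ H, (M i j : ℝ) ^ 2 / p := by
      intro i _
      have : N - a i = ∑ j ∈ H, (1 - φ j i) := by
        rw [Finset.sum_sub_distrib]
        simp [hN, ha]
      rw [this]
      refine Finset.sum_le_sum fun j _ => ?_
      have h1 := le_phi p (M i j)
      have h2 : φ j i = phi p (M i j) := by rw [φs]
      rw [h2]
      linarith
    calc ∑ i ∈ H, (N - a i) ≤ ∑ i ∈ H, ∑ j ∈ H, (M i j : ℝ) ^ 2 / p := Finset.sum_le_sum e1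
      _ = S / p := by
        rw [hS, Finset.sum_div]
        exact Finset.sum_congr rfl fun i _ => by rw [Finset.sum_div]
  have hSp : S / p < N ^ 2 / 7 := by
    rw [div_lt_div_iff₀ hpR (by norm_num)]
    linarith
  set h : ι → ℝ := fun i => max 0 (a i - 7 / 40 * N) with hh
  have h0 : ∀ i, 0 ≤ h i := fun i => le_max_left _ _
  have hge : ∀ i, a i - 7 / 40 * N ≤ h i := fun i => le_max_right _ _
  obtain ⟨i₀, hi₀, hi₀pos⟩ : ∃ i ∈ H, 0 < h i := by
    by_contra hno
    push Not at hno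
    have e1 : ∀ i ∈ H, 33 / 40 * N ≤ N - a i := by
      intro i hi
      have := hno i hi
      have h2 := hge i
      linarith
    have e2 : 33 / 40 * N * N ≤ ∑ i ∈ H, (N - a i) := by
      calc 33 / 40 * N * N = ∑ _i ∈ H, 33 / 40 * N := by
            rw [Finset.sum_const, nsmul_eq_mul, ← hN]; ring
        _ ≤ _ := Finset.sum_le_sum e1
    nlinarith
  -- the maximizing pair
  obtain ⟨⟨k, l⟩, hkl, hmax⟩ := Finset.exists_max_image (H ×ˢ H)
    (fun t : ι × ι => h t.1 * h t.2 / |(M t.1 t.2 : ℝ)|) ⟨(i₀, i₀), by simp [hi₀]⟩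
  simp only [Finset.mem_product] at hkl
  obtain ⟨hk, hl⟩ := hkl
  have habs : ∀ i ∈ H, ∀ j ∈ H, (1 : ℝ) ≤ |(M i j : ℝ)| := by
    intro i hi j hj
    have := Int.one_le_abs (hMne i hi j hj)
    have h2 : ((1 : ℤ) : ℝ) ≤ ((|M i j| : ℤ) : ℝ) := by exact_mod_cast this
    simpa using h2
  set t : ℝ := |(M k l : ℝ)| with ht
  have ht1 : 1 ≤ t := habs k hk l hl
  have hF : ∀ i ∈ H, ∀ j ∈ H, h i * h j * t ≤ h k * h l * |(M i j : ℝ)| := by
    intro i hi j hj
    have h1 := hmax (i, j) (by simp [hi, hj])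
    simp only at h1
    have h2 := habs i hi j hj
    rw [div_le_div_iff₀ (by linarith) (by linarith)] at h1
    exact h1
  have hklpos : 0 < h k * h l := by
    have h1 := hF i₀ hi₀ i₀ hi₀
    have h2 : 0 < h i₀ * h i₀ * t := by positivity
    have h3 : 0 < h k * h l * |(M i₀ i₀ : ℝ)| := by linarith
    by_contra hneg
    push Not at hneg
    have h4 : h k * h l * |(M i₀ i₀ : ℝ)| ≤ 0 :=
      mul_nonpos_of_nonpos_of_nonneg hneg (abs_nonneg _)
    linarith
  have hkpos : 0 < h k := by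
    rcases (h0 k).lt_or_eq with h1 | h1
    · exact h1
    · rw [← h1, zero_mul] at hklpos; exact absurd hklpos (lt_irrefl _)
  have hlpos : 0 < h l := by
    rcases (h0 l).lt_or_eq with h1 | h1
    · exact h1
    · rw [← h1, mul_zero] at hklpos; exact absurd hklpos (lt_irrefl _)
  have hval : ∀ i, 0 < h i → h i = a i - 7 / 40 * N := by
    intro i hi
    rcases max_choice (0 : ℝ) (a i - 7 / 40 * N) with h1 | h1
    · have : h i = 0 := h1
      linarith
    · exact h1
  -- the sums `∑ φ h`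
  have hsum : ∀ l, 0 < h l → 191 / 231 * N * h l ≤ ∑ i ∈ H, φ i l * h i := by
    intro l hl
    have e1 : ∑ i ∈ H, φ i l * (33 / 40 * N - (N - a i)) ≤ ∑ i ∈ H, φ i l * h i := by
      refine Finset.sum_le_sum fun i _ => mul_le_mul_of_nonneg_left ?_ (φ0 i l)
      have := hge i
      linarith
    have e2 : 33 / 40 * N * a l - ∑ i ∈ H, (N - a i) ≤
        ∑ i ∈ H, φ i l * (33 / 40 * N - (N - a i)) := by
      have e3 : ∑ i ∈ H, φ i l * (33 / 40 * N - (N - a i)) =
          33 / 40 * N * a l - ∑ i ∈ H, φ i l * (N - a i) := by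
        rw [ha, Finset.mul_sum, ← Finset.sum_sub_distrib]
        exact Finset.sum_congr rfl fun i _ => by ring
      rw [e3]
      have e4 : ∑ i ∈ H, φ i l * (N - a i) ≤ ∑ i ∈ H, (N - a i) := by
        refine Finset.sum_le_sum fun i _ => ?_
        have h1 := φ1 i l
        have h2 : 0 ≤ N - a i := by linarith [haN i]
        nlinarith
      linarith
    have e5 := hval l hl
    have e6 := haN l
    rw [e5]
    nlinarith
  -- the bilinear form
  set σ : ℝ := (SignType.sign (M k l : ℝ) : ℝ) with hσ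
  set y : ι → ℝ := fun i => if i ∈ H then σ * (φ i l * (SignType.sign (M i l : ℝ) : ℝ)) else 0
    with hy
  set z : ι → ℝ := fun j => if j ∈ H then φ k j * (SignType.sign (M k j : ℝ) : ℝ) else 0 with hz
  have hsgn : ∀ r : ℝ, ((SignType.sign r : ℝ)) ^ 2 ≤ 1 := by
    intro r
    rcases lt_trichotomy r 0 with h1 | h1 | h1
    · rw [sign_neg h1]; norm_num
    · rw [h1, sign_zero]; norm_num
    · rw [sign_pos h1]; norm_num
  have hbil := bilin hqR (fun i j => (M i j : ℝ)) (fun i j => by rw [hsym]) (fun i j => by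
    have := hsq i j
    exact_mod_cast this) y z
  have hysq : ∑ i, y i ^ 2 ≤ N := by
    have e1 : ∀ i, y i ^ 2 ≤ if i ∈ H then (1 : ℝ) else 0 := by
      intro i
      simp only [hy]
      split_ifs with hi
      · have h1 := hsgn (M k l : ℝ)
        have h2 := hsgn (M i l : ℝ)
        have h3 := φ0 i l
        have h4 := φ1 i l
        have h5 : (φ i l) ^ 2 ≤ 1 := by nlinarith
        rw [mul_pow, mul_pow]
        have h6 : φ i l ^ 2 * (SignType.sign (M i l : ℝ) : ℝ) ^ 2 ≤ 1 := by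
          nlinarith [sq_nonneg (φ i l), sq_nonneg ((SignType.sign (M i l : ℝ) : ℝ))]
        have h7 : 0 ≤ φ i l ^ 2 * (SignType.sign (M i l : ℝ) : ℝ) ^ 2 := by positivity
        nlinarith [sq_nonneg σ]
      · norm_num
    calc ∑ i, y i ^ 2 ≤ ∑ i, (if i ∈ H then (1 : ℝ) else 0) := Finset.sum_le_sum fun i _ => e1 i
      _ = N := by simp [hN]
  have hzsq : ∑ j, z j ^ 2 ≤ N := by
    have e1 : ∀ i, z i ^ 2 ≤ if i ∈ H then (1 : ℝ) else 0 := by
      intro i
      simp only [hz]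
      split_ifs with hi
      · have h2 := hsgn (M k i : ℝ)
        have h3 := φ0 k i
        have h4 := φ1 k i
        have h5 : (φ k i) ^ 2 ≤ 1 := by nlinarith
        rw [mul_pow]
        nlinarith [sq_nonneg (φ k i), sq_nonneg ((SignType.sign (M k i : ℝ) : ℝ))]
      · norm_num
    calc ∑ i, z i ^ 2 ≤ ∑ i, (if i ∈ H then (1 : ℝ) else 0) := Finset.sum_le_sum fun i _ => e1 i
      _ = N := by simp [hN]
  have hdbl : ∑ i, ∑ j, y i * (M i j : ℝ) * z j =
      ∑ i ∈ H, ∑ j ∈ H, σ * ((φ i l * (SignType.sign (M i l : ℝ) : ℝ)) * (M i j : ℝ) *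
        (φ k j * (SignType.sign (M k j : ℝ) : ℝ))) := by
    rw [← Finset.sum_subset (Finset.subset_univ H)]
    · refine Finset.sum_congr rfl fun i hi => ?_
      rw [← Finset.sum_subset (Finset.subset_univ H)]
      · refine Finset.sum_congr rfl fun j hj => ?_
        simp only [hy, hz]
        rw [if_pos hi, if_pos hj]
        ring
      · intro j _ hj
        simp only [hz]
        rw [if_neg hj, mul_zero]
    · intro i _ hi
      refine Finset.sum_eq_zero fun j _ => ?_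
      simp only [hy]
      rw [if_neg hi, zero_mul, zero_mul]
  have hlow : ∑ i ∈ H, ∑ j ∈ H, (φ i l * φ k j * |(M i j : ℝ)| - 2 * t / p * (M i j : ℝ) ^ 2) ≤
      ∑ i, ∑ j, y i * (M i j : ℝ) * z j := by
    rw [hdbl]
    refine Finset.sum_le_sum fun i hi => Finset.sum_le_sum fun j hj => ?_
    exact term hp0 (hMne i hi j hj) (hMne k hk l hl) (hMne i hi l hl) (hMne k hk j hj)
      (hdvd i j k l)
  have hsplit : ∑ i ∈ H, ∑ j ∈ H, (φ i l * φ k j * |(M i j : ℝ)| - 2 * t / p * (M i j : ℝ) ^ 2) =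
      ∑ i ∈ H, ∑ j ∈ H, φ i l * φ k j * |(M i j : ℝ)| - 2 * t * (S / p) := by
    have e1 : 2 * t * (S / p) = ∑ i ∈ H, ∑ j ∈ H, 2 * t / p * (M i j : ℝ) ^ 2 := by
      simp only [← Finset.mul_sum]
      rw [← hS]
      ring
    rw [e1, ← Finset.sum_sub_distrib]
    refine Finset.sum_congr rfl fun i _ => ?_
    rw [← Finset.sum_sub_distrib]
  -- the main term
  have hmain : (191 / 231) ^ 2 * N ^ 2 * t ≤ ∑ i ∈ H, ∑ j ∈ H, φ i l * φ k j * |(M i j : ℝ)| := by
    have e1 : (∑ i ∈ H, φ i l * h i) * (∑ j ∈ H, φ k j * h j) * t ≤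
        h k * h l * ∑ i ∈ H, ∑ j ∈ H, φ i l * φ k j * |(M i j : ℝ)| := by
      rw [Finset.sum_mul_sum, Finset.sum_mul, Finset.mul_sum]
      refine Finset.sum_le_sum fun i hi => ?_
      rw [Finset.sum_mul, Finset.mul_sum]
      refine Finset.sum_le_sum fun j hj => ?_
      have h1 := hF i hi j hj
      have h2 : 0 ≤ φ i l * φ k j := mul_nonneg (φ0 _ _) (φ0 _ _)
      calc φ i l * h i * (φ k j * h j) * t = φ i l * φ k j * (h i * h j * t) := by ring
        _ ≤ φ i l * φ k j * (h k * h l * |(M i j : ℝ)|) := mul_le_mul_of_nonneg_left h1 h2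
        _ = _ := by ring
    have e2 := hsum l hlpos
    have e3 : 191 / 231 * N * h k ≤ ∑ j ∈ H, φ k j * h j := by
      have := hsum k hkpos
      calc 191 / 231 * N * h k ≤ ∑ i ∈ H, φ i k * h i := this
        _ = _ := Finset.sum_congr rfl fun j _ => by rw [φs]
    have e4 : (191 / 231 * N * h l) * (191 / 231 * N * h k) ≤
        (∑ i ∈ H, φ i l * h i) * (∑ j ∈ H, φ k j * h j) :=
      mul_le_mul e2 e3 (by positivity) (le_trans (by positivity) e2)
    have e5 : (191 / 231 * N * h l) * (191 / 231 * N * h k) * t ≤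
        h k * h l * ∑ i ∈ H, ∑ j ∈ H, φ i l * φ k j * |(M i j : ℝ)| :=
      le_trans (mul_le_mul_of_nonneg_right e4 (by linarith)) e1
    have e6 : h k * h l * ((191 / 231) ^ 2 * N ^ 2 * t) ≤
        h k * h l * ∑ i ∈ H, ∑ j ∈ H, φ i l * φ k j * |(M i j : ℝ)| := by
      calc h k * h l * ((191 / 231) ^ 2 * N ^ 2 * t) =
          (191 / 231 * N * h l) * (191 / 231 * N * h k) * t := by ring
        _ ≤ _ := e5
    exact le_of_mul_le_mul_left e6 hklpos
  have hfin : (191 / 231) ^ 2 * N ^ 2 * t - 2 * t * (N ^ 2 / 7) ≤ q * N := by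
    have e1 : 2 * t * (S / p) ≤ 2 * t * (N ^ 2 / 7) :=
      mul_le_mul_of_nonneg_left hSp.le (by linarith)
    have e2 : 2 * ∑ i, ∑ j, y i * (M i j : ℝ) * z j ≤ q * (N + N) :=
      le_trans hbil (mul_le_mul_of_nonneg_left (add_le_add hysq hzsq) hqR.le)
    rw [hsplit] at hlow
    linarith
  have hc : (148645 / 373527 : ℝ) * N ^ 2 ≤ q * N := by
    have e1 : (148645 / 373527 : ℝ) * N ^ 2 * 1 ≤ (148645 / 373527 : ℝ) * N ^ 2 * t :=
      mul_le_mul_of_nonneg_left ht1 (by positivity)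
    have e2 : (148645 / 373527 : ℝ) * N ^ 2 * t =
        (191 / 231) ^ 2 * N ^ 2 * t - 2 * t * (N ^ 2 / 7) := by ring
    linarith
  have hc2 : (148645 / 373527 : ℝ) * N ≤ q := by
    have : (148645 / 373527 : ℝ) * N * N ≤ q * N := by
      calc (148645 / 373527 : ℝ) * N * N = (148645 / 373527 : ℝ) * N ^ 2 := by ring
        _ ≤ _ := hc
    exact le_of_mul_le_mul_right this hNpos
  have hc3 : ((148645 / 373527 : ℝ) * N) ^ 2 ≤ (q : ℝ) ^ 2 :=
    pow_le_pow_left₀ (by positivity) hc2 2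
  nlinarith [sq_nonneg N, mul_pos hNpos hNpos]

/-- **The matrix theorem.** -/
theorem sqrt_bound {p q l : ℕ} (hp : p.Prime) (hq : 0 < q) (M : ι → ι → ℤ)
    (hsym : ∀ i j, M i j = M j i) (hsq : ∀ i j, ∑ k, M i k * M k j = q * M i j)
    (htr : ∑ i, M i i = q * l)
    {K : Type*} [Field K] [CharP K p] (u s : ι → K) (hred : ∀ i j, (M i j : K) = u i * s j)
    (H : Finset ι) (hu : ∀ i ∈ H, u i ≠ 0) (hs : ∀ i ∈ H, s i ≠ 0) :
    p * H.card ^ 2 ≤ 7 * q ^ 2 * max p l := by
  have hpR : (0 : ℝ) < p := by exact_mod_cast hp.pos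
  by_cases h7 : 7 * (q : ℝ) ^ 2 < (H.card : ℝ) ^ 2
  · have h1 := core hp hq M hsym hsq u s hred H hu hs h7
    have h2 : ∑ i ∈ H, ∑ j ∈ H, (M i j : ℝ) ^ 2 ≤ (q : ℝ) ^ 2 * l := by
      have e1 : ∑ i, ∑ j, (M i j : ℝ) ^ 2 = (q : ℝ) ^ 2 * l := by
        have e2 : ∀ i, ∑ j, (M i j) ^ 2 = q * M i i := by
          intro i
          rw [← hsq i i]
          exact Finset.sum_congr rfl fun j _ => by rw [pow_two, hsym j i]
        have e3 : ∑ i, ∑ j, (M i j) ^ 2 = (q : ℤ) ^ 2 * l := by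
          rw [Finset.sum_congr rfl fun i _ => e2 i, ← Finset.mul_sum, htr]
          ring
        exact_mod_cast e3
      rw [← e1]
      calc ∑ i ∈ H, ∑ j ∈ H, (M i j : ℝ) ^ 2 ≤ ∑ i ∈ H, ∑ j, (M i j : ℝ) ^ 2 :=
            Finset.sum_le_sum fun i _ => Finset.sum_le_sum_of_subset_of_nonneg
              (Finset.subset_univ H) fun j _ _ => sq_nonneg _
        _ ≤ _ := Finset.sum_le_sum_of_subset_of_nonneg (Finset.subset_univ H)
              fun i _ _ => Finset.sum_nonneg fun j _ => sq_nonneg _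
    have h3 : (p : ℝ) * (H.card : ℝ) ^ 2 ≤ 7 * (q : ℝ) ^ 2 * l := by linarith
    have h4 : p * H.card ^ 2 ≤ 7 * q ^ 2 * l := by exact_mod_cast h3
    exact h4.trans (Nat.mul_le_mul_left _ (le_max_right _ _))
  · push Not at h7
    have h1 : H.card ^ 2 ≤ 7 * q ^ 2 := by exact_mod_cast h7
    calc p * H.card ^ 2 ≤ p * (7 * q ^ 2) := Nat.mul_le_mul_left _ h1
      _ = 7 * q ^ 2 * p := by ring
      _ ≤ _ := Nat.mul_le_mul_left _ (le_max_left _ _)

end main

end Pool.Agent.Helper98.KB
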