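import Mathlib
import Pool.Agent.Helper98.KB.Mat
import Pool.Graph.R_pool_sql_team_seeded_63374d34.N20.MatThm3

/-!
The three bounds for an integral matrix with `M² = p^d M` which has rank one modulo `p`.
-/

set_option autoImplicit false
set_option maxHeartbeats 4000000

open scoped BigOperators

namespace Pool.Agent.Helper98.KB

section

variable {ι : Type*} [Fintype ι] [DecidableEq ι]

lemma diag_sq {q : ℤ} (M : ι → ι → ℤ) (hsym : ∀ i j, M i j = M j i)
    (hsq : ∀ i j, ∑ k, M i k * M k j = q * M i j) (i : ι) : ∑ j, M i j ^ 2 = q * M i i := by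
  rw [← hsq i i]
  exact Finset.sum_congr rfl fun j _ => by rw [pow_two, hsym j i]

lemma diag_nonneg {q : ℤ} (hq : 0 < q) (M : ι → ι → ℤ) (hsym : ∀ i j, M i j = M j i)
    (hsq : ∀ i j, ∑ k, M i k * M k j = q * M i j) (i : ι) : 0 ≤ M i i := by
  have h1 := diag_sq M hsym hsq i
  have h2 : 0 ≤ ∑ j, M i j ^ 2 := Finset.sum_nonneg fun j _ => sq_nonneg _
  rw [h1] at h2
  exact nonneg_of_mul_nonneg_right h2 hq

/-- the elementary inequality -/
lemma numeric {p m x y : ℝ} (hp : 2 ≤ p) (hm : p ≤ m) (hx : 0 ≤ x) (_hy : 0 ≤ y)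
    (h1 : p * x ^ 2 ≤ 7 * m) (h2 : x ^ 2 + p ^ 2 * (x * y) + p ^ 2 * (y * max 1 x) ≤ m) :
    x + y ≤ max (√(8 * m / p)) (m / p ^ 2) := by
  have hp0 : 0 < p := by linarith
  have hm0 : 0 < m := by linarith
  set R := √(8 * m / p) with hR
  have hR0 : 0 ≤ R := Real.sqrt_nonneg _
  have hR2 : R ^ 2 = 8 * m / p := Real.sq_sqrt (by positivity)
  have hR2' : p * R ^ 2 = 8 * m := by rw [hR2]; field_simp
  have hRge : 2 ≤ R := by
    by_contra hcon
    push Not at hcon
    have : R ^ 2 < 4 := by nlinarith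
    nlinarith
  set A := max R (m / p ^ 2) with hA
  have hA1 : R ≤ A := le_max_left _ _
  have hA2 : m / p ^ 2 ≤ A := le_max_right _ _
  rcases le_or_gt x 1 with hx1 | hx1
  · rw [max_eq_left hx1] at h2
    have h3 : y * (1 + x) ≤ m / p ^ 2 := by
      rw [le_div_iff₀ (by positivity)]
      nlinarith [sq_nonneg x]
    have h4 : (x + y) * (1 + x) ≤ A * (1 + x) := by
      nlinarith
    exact le_of_mul_le_mul_right h4 (by linarith)
  · rw [max_eq_right hx1.le] at h2
    set c := m / (2 * p ^ 2) with hc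
    have hc2 : 2 * c ≤ A := by
      have : 2 * c = m / p ^ 2 := by rw [hc]; field_simp
      rw [this]; exact hA2
    have hxp : 0 < x := by linarith
    have h3 : y * x ≤ c := by
      rw [hc, le_div_iff₀ (by positivity)]
      nlinarith [sq_nonneg x]
    rcases le_or_gt x c with hxc | hxc
    · -- `x + c/x ≤ 1 + c`
      have h4 : (x + y) * x ≤ A * x := by
        have h5 : (x - 1) * (x - c) ≤ 0 := by
          nlinarith
        nlinarith
      exact le_of_mul_le_mul_right h4 hxp
    · -- the upper end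
      set w := √(7 * m / p) with hw
      have hw0 : 0 ≤ w := Real.sqrt_nonneg _
      have hw2 : w ^ 2 = 7 * m / p := Real.sq_sqrt (by positivity)
      have hw2' : p * w ^ 2 = 7 * m := by rw [hw2]; field_simp
      have hxw : x ≤ w := by
        have : x ^ 2 ≤ w ^ 2 := by
          have : p * x ^ 2 ≤ p * w ^ 2 := by rw [hw2']; exact h1
          exact le_of_mul_le_mul_left this hp0
        exact (pow_le_pow_iff_left₀ hx hw0 two_ne_zero).mp this
      have hwpos : 0 < w := by linarith
      have hcw : c ≤ w ^ 2 / 28 := by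
        have e1 : c = w ^ 2 / (14 * p) := by
          rw [hc, hw2]
          field_simp
          ring
        rw [e1]
        exact div_le_div_of_nonneg_left (by positivity) (by norm_num) (by linarith)
      have h4 : (x + y) * x ≤ (29 / 28 * w) * x := by
        have h5 : (w - x) * (x - c) ≥ 0 := mul_nonneg (by linarith) (by linarith)
        have h6 : (w - x) * (x * w - c) ≥ 0 := by
          have : c ≤ x * w := by nlinarith
          exact mul_nonneg (by linarith) (by linarith)
        -- `x + c / x ≤ w + c / w ≤ 29/28 w`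
        have h7 : (x * x + c) * w ≤ (29 / 28 * w * x) * w := by
          nlinarith
        have h8 : x * x + c ≤ 29 / 28 * w * x := le_of_mul_le_mul_right h7 hwpos
        nlinarith
      have h5 : x + y ≤ 29 / 28 * w := le_of_mul_le_mul_right h4 hxp
      have h6 : 29 / 28 * w ≤ R := by
        have : (29 / 28 * w) ^ 2 ≤ R ^ 2 := by
          rw [mul_pow, hw2, hR2]
          rw [← sub_nonneg]
          have : 8 * m / p - (29 / 28) ^ 2 * (7 * m / p) = (8 - (29 / 28) ^ 2 * 7) * (m / p) := by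
            ring
          rw [this]
          have : 0 < m / p := by positivity
          norm_num
          positivity
        exact (pow_le_pow_iff_left₀ (by positivity) hR0 two_ne_zero).mp this
      linarith

theorem abs_bound {p d l : ℕ} (hp : p.Prime) (M : ι → ι → ℤ)
    (hsym : ∀ i j, M i j = M j i) (hsq : ∀ i j, ∑ k, M i k * M k j = p ^ d * M i j)
    (htr : ∑ i, M i i = p ^ d * l)
    {K : Type*} [Field K] [CharP K p] (u s : ι → K) (hred : ∀ i j, (M i j : K) = u i * s j)
    (hus : ∀ i, u i ≠ 0 → s i ≠ 0) (hex : ∃ i, u i ≠ 0)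
    (hpos : ∀ i, u i = 0 → (p : ℤ) ^ 2 ≤ M i i)
    (hcount : ∀ z : ι → ℤ, (∑ i, (z i : K) * u i) * (∑ j, (z j : K) * s j) ≠ 0 →
      ∀ i, ∑ j, M i j * z j ≠ 0) :
    (Fintype.card ι : ℝ) ≤ (p : ℝ) ^ d *
      max 1 (min ((l : ℝ) / (p + 1)) (max (√(8 * l / p)) (l / p ^ 2))) := by
  classical
  have hp0 : 0 < p := hp.pos
  have hpR : (0 : ℝ) < p := by exact_mod_cast hp0
  have hqR : (0 : ℝ) < (p : ℝ) ^ d := by positivity
  have hsingle : ∀ (i : ι) (w : ι → K),
      ∑ j, (((Pi.single i (1 : ℤ) : ι → ℤ) j : ℤ) : K) * w j = w i := by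
    intro i w
    rw [Finset.sum_eq_single i]
    · simp
    · intro b _ hb
      rw [Pi.single_eq_of_ne hb]
      simp
    · intro h
      exact absurd (Finset.mem_univ _) h
  have hb1 : (p + 1) * Fintype.card ι ≤ p ^ d * max (p + 1) l := by
    refine Pool.Agent.N20.mat_bound3 (Q := ι) (d := d) (l := l) hp M hsym hsq htr (K := K) u s hred
      (fun q => Pi.single q 1) (N₀ := 1) (N₁ := Fintype.card ι) one_pos ?_ ?_ ?_
    · intro i j
      have h1 : ∀ (a q : ι), ∑ k, M a k * (Pi.single q (1 : ℤ) : ι → ℤ) k = M a q := by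
        intro a q
        rw [Finset.sum_eq_single q]
        · simp
        · intro b _ hb
          rw [Pi.single_eq_of_ne hb, mul_zero]
        · intro h
          exact absurd (Finset.mem_univ _) h
      simp only [h1]
      rw [Nat.cast_one, one_mul, ← hsq]
      exact Finset.sum_congr rfl fun k _ => by rw [hsym j k]
    · obtain ⟨i, hi⟩ := hex
      refine ⟨Pi.single i 1, ?_⟩
      rw [hsingle, hsingle]
      exact mul_ne_zero hi (hus i hi)
    · intro z hz
      rw [one_mul, ← Finset.card_univ]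
      apply Finset.card_le_card
      intro q _
      rw [Finset.mem_filter]
      refine ⟨Finset.mem_univ _, ?_⟩
      have h1 : ∑ i, ∑ j, (Pi.single q (1 : ℤ) : ι → ℤ) i * z j * M i j = ∑ j, M q j * z j := by
        rw [Finset.sum_eq_single q]
        · refine Finset.sum_congr rfl fun j _ => ?_
          simp
          ring
        · intro b _ hb
          refine Finset.sum_eq_zero fun j _ => ?_
          rw [Pi.single_eq_of_ne hb]
          ring
        · intro h
          exact absurd (Finset.mem_univ _) h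
      rw [h1]
      exact hcount z hz q
  rcases le_or_gt l (p + 1) with hl | hl
  · rw [max_eq_left hl] at hb1
    have h3 : Fintype.card ι ≤ p ^ d := by
      have : (p + 1) * Fintype.card ι ≤ (p + 1) * p ^ d := by
        rw [mul_comm (p + 1) (p ^ d)]; exact hb1
      exact Nat.le_of_mul_le_mul_left this (Nat.succ_pos p)
    calc (Fintype.card ι : ℝ) ≤ (p : ℝ) ^ d * 1 := by rw [mul_one]; exact_mod_cast h3
      _ ≤ _ := mul_le_mul_of_nonneg_left (le_max_left _ _) hqR.le
  rw [max_eq_right hl.le] at hb1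
  refine le_trans ?_ (mul_le_mul_of_nonneg_left (le_max_right _ _) hqR.le)
  rw [mul_min_of_nonneg _ _ hqR.le]
  refine le_min ?_ ?_
  · rw [mul_div_assoc', le_div_iff₀ (by positivity)]
    have : ((p : ℝ) + 1) * Fintype.card ι ≤ (p : ℝ) ^ d * l := by exact_mod_cast hb1
    linarith
  -- the second bound
  set H : Finset ι := Finset.univ.filter (fun i => u i ≠ 0) with hH
  set P : Finset ι := Finset.univ.filter (fun i => ¬ u i ≠ 0) with hP
  have hcard : (Fintype.card ι : ℝ) = H.card + P.card := by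
    rw [← Finset.card_univ, ← Finset.card_filter_add_card_filter_not
      (s := (Finset.univ : Finset ι)) (fun i => u i ≠ 0)]
    push_cast
    rfl
  have hsq' : ∀ i j, ∑ k, M i k * M k j = ((p ^ d : ℕ) : ℤ) * M i j := by
    intro i j
    rw [hsq]
    push_cast
    rfl
  have hHu : ∀ i ∈ H, u i ≠ 0 := fun i hi => (Finset.mem_filter.mp hi).2
  have hPu : ∀ i ∈ P, u i = 0 := fun i hi => by simpa [hP] using hi
  have h1 := sqrt_bound (q := p ^ d) (l := l) hp (pow_pos hp0 d) M hsym hsq'
    (by rw [htr]; push_cast; rfl) u s hred H hHu (fun i hi => hus i (hHu i hi))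
  rw [max_eq_right (by omega : p ≤ l)] at h1
  -- entries
  have hne : ∀ i, ∀ j ∈ H, M i j ≠ 0 := by
    intro i j hj
    have h2 := hcount (Pi.single j 1) (by
      rw [hsingle, hsingle]
      exact mul_ne_zero (hHu j hj) (hus j (hHu j hj))) i
    have h3 : ∑ k, M i k * (Pi.single j (1 : ℤ) : ι → ℤ) k = M i j := by
      rw [Finset.sum_eq_single j]
      · simp
      · intro b _ hb
        rw [Pi.single_eq_of_ne hb, mul_zero]
      · intro h
        exact absurd (Finset.mem_univ _) h
    rwa [h3] at h2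
  have hone : ∀ i, ∀ j ∈ H, (1 : ℤ) ≤ M i j ^ 2 := by
    intro i j hj
    have := hne i j hj
    have h2 : 0 < M i j ^ 2 := by positivity
    omega
  have hpp : ∀ i ∈ P, ∀ j ∈ H, (p : ℤ) ^ 2 ≤ M i j ^ 2 := by
    intro i hi j hj
    have h2 : (p : ℤ) ∣ M i j := by
      rw [← CharP.intCast_eq_zero_iff K p, hred, hPu i hi, zero_mul]
    have h3 : (p : ℤ) ≤ |M i j| := Int.le_of_dvd (abs_pos.mpr (hne i j hj)) ((dvd_abs _ _).mpr h2)
    rw [← sq_abs (M i j)]
    exact pow_le_pow_left₀ (by positivity) h3 2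
  have hqZ : (0 : ℤ) < (p : ℤ) ^ d := by positivity
  have htot : (p : ℤ) ^ d * (p ^ d * l) = ∑ i, ∑ j, M i j ^ 2 := by
    rw [← htr, Finset.mul_sum]
    exact Finset.sum_congr rfl fun i _ => (diag_sq M hsym hsq i).symm
  have hsplit : ∑ i, ∑ j, M i j ^ 2 = ∑ i ∈ H, ∑ j, M i j ^ 2 + ∑ i ∈ P, ∑ j, M i j ^ 2 :=
    (Finset.sum_filter_add_sum_filter_not Finset.univ (fun i => u i ≠ 0) _).symm
  have hrow : ∀ i, ∑ j, M i j ^ 2 = ∑ j ∈ H, M i j ^ 2 + ∑ j ∈ P, M i j ^ 2 := fun i =>
    (Finset.sum_filter_add_sum_filter_not Finset.univ (fun j => u j ≠ 0) _).symm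
  have hHrow : (H.card : ℤ) * (H.card + p ^ 2 * P.card) ≤ ∑ i ∈ H, ∑ j, M i j ^ 2 := by
    have e1 : ∀ i ∈ H, (H.card : ℤ) + p ^ 2 * P.card ≤ ∑ j, M i j ^ 2 := by
      intro i hi
      rw [hrow]
      refine add_le_add ?_ ?_
      · calc (H.card : ℤ) = ∑ _j ∈ H, (1 : ℤ) := by simp
          _ ≤ _ := Finset.sum_le_sum fun j hj => hone i j hj
      · calc (p : ℤ) ^ 2 * P.card = ∑ _j ∈ P, (p : ℤ) ^ 2 := by
              rw [Finset.sum_const, nsmul_eq_mul]; ring
          _ ≤ _ := Finset.sum_le_sum fun j hj => by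
              rw [hsym i j]
              exact hpp j hj i hi
    calc (H.card : ℤ) * (H.card + p ^ 2 * P.card) = ∑ _i ∈ H, ((H.card : ℤ) + p ^ 2 * P.card) := by
          rw [Finset.sum_const, nsmul_eq_mul]
      _ ≤ _ := Finset.sum_le_sum e1
  have hProw1 : (P.card : ℤ) * (p ^ d * p ^ 2) ≤ ∑ i ∈ P, ∑ j, M i j ^ 2 := by
    calc (P.card : ℤ) * (p ^ d * p ^ 2) = ∑ _i ∈ P, ((p : ℤ) ^ d * p ^ 2) := by
          rw [Finset.sum_const, nsmul_eq_mul]
      _ ≤ _ := Finset.sum_le_sum fun i hi => by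
          rw [diag_sq M hsym hsq]
          exact mul_le_mul_of_nonneg_left (hpos i (hPu i hi)) hqZ.le
  have hProw2 : (P.card : ℤ) * (p ^ 2 * H.card) ≤ ∑ i ∈ P, ∑ j, M i j ^ 2 := by
    calc (P.card : ℤ) * (p ^ 2 * H.card) = ∑ _i ∈ P, ((p : ℤ) ^ 2 * H.card) := by
          rw [Finset.sum_const, nsmul_eq_mul]
      _ ≤ _ := Finset.sum_le_sum fun i hi => by
          rw [hrow]
          have e1 : (p : ℤ) ^ 2 * H.card ≤ ∑ j ∈ H, M i j ^ 2 := by
            calc (p : ℤ) ^ 2 * H.card = ∑ _j ∈ H, (p : ℤ) ^ 2 := by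
                  rw [Finset.sum_const, nsmul_eq_mul]; ring
              _ ≤ _ := Finset.sum_le_sum fun j hj => hpp i hi j hj
          have e2 : 0 ≤ ∑ j ∈ P, M i j ^ 2 := Finset.sum_nonneg fun j _ => sq_nonneg _
          linarith
  -- over the reals
  set q : ℝ := (p : ℝ) ^ d with hq
  set a : ℝ := (H.card : ℝ) with ha
  set b : ℝ := (P.card : ℝ) with hb
  have ha0 : 0 ≤ a := by positivity
  have hb0 : 0 ≤ b := by positivity
  have r1 : a * (a + p ^ 2 * b) + b * (q * p ^ 2) ≤ q * (q * l) := by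
    have : (H.card : ℤ) * (H.card + p ^ 2 * P.card) + (P.card : ℤ) * (p ^ d * p ^ 2) ≤
        (p : ℤ) ^ d * (p ^ d * l) := by
      rw [htot, hsplit]
      exact add_le_add hHrow hProw1
    rw [ha, hb, hq]
    exact_mod_cast this
  have r2 : a * (a + p ^ 2 * b) + b * (p ^ 2 * a) ≤ q * (q * l) := by
    have : (H.card : ℤ) * (H.card + p ^ 2 * P.card) + (P.card : ℤ) * (p ^ 2 * H.card) ≤
        (p : ℤ) ^ d * (p ^ d * l) := by
      rw [htot, hsplit]
      exact add_le_add hHrow hProw2
    rw [ha, hb]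
    rw [hq]
    exact_mod_cast this
  have r3 : (p : ℝ) * a ^ 2 ≤ 7 * q ^ 2 * l := by
    rw [ha, hq]
    exact_mod_cast h1
  have hx : p * (a / q) ^ 2 ≤ 7 * (l : ℝ) := by
    rw [div_pow, mul_div_assoc', div_le_iff₀ (by positivity)]
    linarith
  have hy : (a / q) ^ 2 + (p : ℝ) ^ 2 * (a / q * (b / q)) + (p : ℝ) ^ 2 * (b / q * max 1 (a / q)) ≤
      l := by
    have e1 : b / q * max 1 (a / q) = b * max q a / q ^ 2 := by
      have : max q a = q * max 1 (a / q) := by
        rw [mul_max_of_nonneg _ _ hqR.le, mul_one, mul_div_cancel₀ _ hqR.ne']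
      rw [this]
      field_simp
    have e2 : (a / q) ^ 2 + (p : ℝ) ^ 2 * (a / q * (b / q)) + (p : ℝ) ^ 2 * (b / q * max 1 (a / q)) =
        (a ^ 2 + p ^ 2 * (a * b) + p ^ 2 * (b * max q a)) / q ^ 2 := by
      rw [e1]
      field_simp
    rw [e2, div_le_iff₀ (by positivity)]
    rcases le_total a q with h | h
    · rw [max_eq_left h]
      nlinarith
    · rw [max_eq_right h]
      nlinarith
  have hfin := numeric (p := p) (m := l) (x := a / q) (y := b / q) (by exact_mod_cast hp.two_le)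
    (by exact_mod_cast (by omega : p ≤ l)) (by positivity) (by positivity) hx hy
  rw [hcard]
  have : a + b = q * (a / q + b / q) := by field_simp
  rw [this]
  exact mul_le_mul_of_nonneg_left hfin hqR.le

end

end Pool.Agent.Helper98.KB
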