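import Mathlib
import Pool.Agent.Helper98.KB.Abs
import Pool.Graph.R_pool_sql_team_seeded_63374d34.N20.Sub5

/-!
The contribution matrix of a block and its complement.
-/

set_option autoImplicit false
set_option maxHeartbeats 4000000
set_option linter.style.haveILetI false
set_option linter.unusedSectionVars false

open scoped BigOperators Classical
open Pool.Agent.Helper884 Pool.Agent.H254R3.IN Pool.Agent.N20

noncomputable section

namespace Pool.Agent.Helper98.KB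

/-- a rational number in the maximal ideal is divisible by `p` -/
lemma div_p_mem {O : ValuationSubring ℂ} {p : ℕ} [hp : Fact p.Prime] (hpO : (p : ℂ) ∈ O.nonunits)
    {a b : ℕ} (hb : b ≠ 0) (hmem : (a : ℂ) / b ∈ O) (hred : red O ((a : ℂ) / b) = 0) :
    (a : ℂ) / b / p ∈ O := by
  have hp0 : (p : ℂ) ≠ 0 := by exact_mod_cast hp.out.ne_zero
  by_cases ha : a = 0
  · rw [ha]; simp [O.zero_mem]
  obtain ⟨i, a', ha', rfl⟩ := Nat.exists_eq_pow_mul_and_not_dvd ha p hp.out.ne_one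
  obtain ⟨j, b', hb', rfl⟩ := Nat.exists_eq_pow_mul_and_not_dvd hb p hp.out.ne_one
  have ha0 : (a' : ℂ) ≠ 0 := by
    intro h0
    apply ha'
    have : a' = 0 := by exact_mod_cast h0
    rw [this]; exact dvd_zero _
  have hb0 : (b' : ℂ) ≠ 0 := by
    intro h0
    apply hb'
    have : b' = 0 := by exact_mod_cast h0
    rw [this]; exact dvd_zero _
  rcases le_or_gt i j with hij | hij
  · exfalso
    obtain ⟨t, rfl⟩ := Nat.exists_eq_add_of_le hij
    have h1 : ((((p ^ (i + t) * b' : ℕ) : ℂ) / ((p ^ i * a' : ℕ) : ℂ))) ∈ O := by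
      have h2 : ((((p ^ (i + t) * b' : ℕ) : ℂ) / ((p ^ i * a' : ℕ) : ℂ))) =
          (p : ℂ) ^ t * (b' : ℂ) * (a' : ℂ)⁻¹ := by
        push_cast
        field_simp
        ring
      rw [h2]
      exact O.mul_mem _ _ (O.mul_mem _ _ (pow_mem (natCast_mem' p) t) (natCast_mem' b'))
        (nat_inv_mem hpO ha')
    have h3 := red_ne_zero_of_mul hmem h1 (by
      push_cast
      field_simp)
    exact h3 hred
  · obtain ⟨t, rfl⟩ := Nat.exists_eq_add_of_lt hij
    have h2 : ((((p ^ (j + t + 1) * a' : ℕ) : ℂ) / ((p ^ j * b' : ℕ) : ℂ))) / p =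
        (p : ℂ) ^ t * (a' : ℂ) * (b' : ℂ)⁻¹ := by
      push_cast
      field_simp
      ring
    rw [h2]
    exact O.mul_mem _ _ (O.mul_mem _ _ (pow_mem (natCast_mem' p) t) (natCast_mem' a'))
      (nat_inv_mem hpO hb')

lemma int_div_pow {O : ValuationSubring ℂ} {p : ℕ} [hp : Fact p.Prime]
    (hpO : (p : ℂ) ∈ O.nonunits) {n : ℤ} {k : ℕ} (h : (n : ℂ) / (p : ℂ) ^ k ∈ O) :
    (p : ℤ) ^ k ∣ n := by
  have h4 : ((n.natAbs : ℕ) : ℂ) / (p : ℂ) ^ k ∈ O := by
    rcases Int.natAbs_eq n with h6 | h6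
    · have h7 : ((n.natAbs : ℕ) : ℂ) = (n : ℂ) := by
        have h8 : ((n.natAbs : ℕ) : ℤ) = n := by omega
        rw [← Int.cast_natCast, h8]
      rw [h7]
      exact h
    · have h7 : ((n.natAbs : ℕ) : ℂ) = -(n : ℂ) := by
        have h8 : ((n.natAbs : ℕ) : ℤ) = -n := by omega
        rw [← Int.cast_natCast, h8, Int.cast_neg]
      rw [h7, neg_div]
      exact O.neg_mem _ h
  have h5 := dvd_of_div_mem hpO h4
  have : ((p ^ k : ℕ) : ℤ) ∣ n := Int.natCast_dvd.mpr h5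
  simpa using this

variable {G : Type} [Group G] [Fintype G]

/-- the bound for a block of positive defect -/
theorem block_two {p : ℕ} (hp : p.Prime) {O : ValuationSubring ℂ}
    (hpO : (p : ℂ) ∈ O.nonunits) {D : Subgroup G} {B : Set (G → ℂ)} (hB : IsBlock O B)
    (hD : IsDefectGroup p O B D) {d : ℕ} (hd : Nat.card D = p ^ (d + 1)) (m : ℕ)
    (hm : m = lB p B ∨ m = Nat.card B - lB p B) :
    (Nat.card B : ℝ) ≤ (p : ℝ) ^ (d + 1) *
      max 1 (min ((m : ℝ) / (p + 1)) (max (√(8 * m / p)) (m / p ^ 2))) := by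
  haveI : Fact p.Prime := ⟨hp⟩
  haveI := charP_RF hpO
  have hp0 : (p : ℂ) ≠ 0 := by exact_mod_cast hp.ne_zero
  have hD0 : (Nat.card D : ℂ) ≠ 0 := by exact_mod_cast Nat.card_pos.ne'
  have hmem : ∀ χ : {χ // χ ∈ XB B}, (χ : G → ℂ) ∈ B := fun χ => (mem_XB hB.irr).mp χ.2
  have hirr : ∀ χ : {χ // χ ∈ XB B}, IsIrr (χ : G → ℂ) := fun χ => hB.irr _ (hmem χ)
  choose M hM using fun χ ψ : {χ // χ ∈ XB B} => contr_int hpO hB hD (hmem χ) (hmem ψ)
  have hsym : ∀ χ ψ : {χ // χ ∈ XB B}, M χ ψ = M ψ χ := by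
    intro χ ψ
    have : (M χ ψ : ℂ) = M ψ χ := by
      rw [hM, hM, B_cut_comm]
    exact_mod_cast this
  have hDp : (p : ℂ) ^ (d + 1) = Nat.card D := by
    rw [hd]; push_cast; rfl
  have hsq : ∀ χ ψ, ∑ φ, M χ φ * M φ ψ = p ^ (d + 1) * M χ ψ := by
    intro χ ψ
    have : ((∑ φ, M χ φ * M φ ψ : ℤ) : ℂ) = ((p ^ (d + 1) * M χ ψ : ℤ) : ℂ) := by
      have h1 := B_cut_idem hpO hB (χ := χ) (ψ := ψ) (hmem χ)
      rw [← Finset.sum_coe_sort (XB B)
        (fun φ : G → ℂ => IC.B (cut p (χ : G → ℂ)) φ * IC.B (cut p φ) ψ)] at h1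
      push_cast
      simp only [hM]
      rw [← h1, hDp, Finset.mul_sum, Finset.mul_sum]
      refine Finset.sum_congr rfl fun φ _ => ?_
      ring
    exact_mod_cast this
  have htr : ∑ χ, M χ χ = p ^ (d + 1) * (lB p B : ℤ) := by
    have : ((∑ χ, M χ χ : ℤ) : ℂ) = ((p ^ (d + 1) * (lB p B : ℤ) : ℤ) : ℂ) := by
      push_cast
      simp only [hM]
      rw [← trace_eq hpO hB, ← Finset.mul_sum,
        ← Finset.sum_coe_sort (XB B) (fun φ : G → ℂ => IC.B (cut p φ) φ), hDp]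
    exact_mod_cast this
  obtain ⟨χ₀', hχ₀', hχ₀ne'⟩ := exists_uu_ne hpO hB hD
  set χ₀ : {χ // χ ∈ XB B} := ⟨χ₀', (mem_XB hB.irr).mpr hχ₀'⟩ with hχ₀def
  have hχ₀ : (χ₀ : G → ℂ) ∈ B := hχ₀'
  have hχ₀ne : red O (uu D (χ₀ : G → ℂ)) ≠ 0 := hχ₀ne'
  set u : {χ // χ ∈ XB B} → RF O := fun χ => red O (uu D (χ : G → ℂ)) with hu
  set s : {χ // χ ∈ XB B} → RF O := fun ψ => sr p O (χ₀ : G → ℂ) ψ with hs
  have hseq : ∀ ψ, s ψ = u ψ * ccG O p D (χ₀ : G → ℂ) := fun ψ => sr_eq hpO hB hD hχ₀ (hmem ψ)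
  have hcc : ccG O p D (χ₀ : G → ℂ) ≠ 0 := cc_ne hpO hB hD hχ₀
  have hus : ∀ χ, u χ ≠ 0 → s χ ≠ 0 := by
    intro χ h
    rw [hseq]
    exact mul_ne_zero h hcc
  have hredM : ∀ χ ψ, ((M χ ψ : ℤ) : RF O) = u χ * s ψ := by
    intro χ ψ
    rw [← red_intCast, hM, card_mul_B D (hirr χ) (fun g y => (hirr ψ).conj g y),
      red_mul (Pool.Agent.N20.uu_mem hpO hB hD (hmem χ)) (SS_mem (hirr χ) (hirr ψ)), red_SS (hirr χ) (hirr ψ),
      sr_block hB (hmem χ) hχ₀]
  -- the values of `M z`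
  have hMz : ∀ (z : {χ // χ ∈ XB B} → ℤ) (χ : {χ // χ ∈ XB B}), ((∑ ψ, M χ ψ * z ψ : ℤ) : ℂ) =
      uu D (χ : G → ℂ) * ∑ ψ : {χ // χ ∈ XB B}, (z ψ : ℂ) * SS p (χ : G → ℂ) ψ := by
    intro z χ
    push_cast
    rw [Finset.mul_sum]
    refine Finset.sum_congr rfl fun ψ _ => ?_
    rw [hM, card_mul_B D (hirr χ) (fun g y => (hirr ψ).conj g y)]
    ring
  have hYmem : ∀ (z : {χ // χ ∈ XB B} → ℤ) (χ : {χ // χ ∈ XB B}),
      ∑ ψ : {χ // χ ∈ XB B}, (z ψ : ℂ) * SS p (χ : G → ℂ) ψ ∈ O := fun z χ =>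
    sum_mem fun ψ _ => O.mul_mem _ _ (intCast_mem' _) (SS_mem (hirr χ) (hirr ψ))
  have hYred : ∀ (z : {χ // χ ∈ XB B} → ℤ) (χ : {χ // χ ∈ XB B}),
      red O (∑ ψ : {χ // χ ∈ XB B}, (z ψ : ℂ) * SS p (χ : G → ℂ) ψ) =
        ∑ ψ, (z ψ : RF O) * s ψ := by
    intro z χ
    rw [red_sum _ _ (fun ψ _ => O.mul_mem _ _ (intCast_mem' _) (SS_mem (hirr χ) (hirr ψ)))]
    refine Finset.sum_congr rfl fun ψ _ => ?_
    rw [red_mul (intCast_mem' _) (SS_mem (hirr χ) (hirr ψ)), red_intCast,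
      red_SS (hirr χ) (hirr ψ), sr_block hB (hmem χ) hχ₀]
  have hcount : ∀ z : {χ // χ ∈ XB B} → ℤ,
      (∑ i, (z i : RF O) * u i) * (∑ j, (z j : RF O) * s j) ≠ 0 →
      ∀ i, ∑ j, M i j * z j ≠ 0 := by
    intro z hz χ h0
    have h1 := hMz z χ
    rw [h0, Int.cast_zero] at h1
    have h2 := (mul_eq_zero.mp h1.symm).resolve_left (uu_ne (hirr χ))
    have h3 := hYred z χ
    rw [h2, red_zero] at h3
    exact right_ne_zero_of_mul hz h3.symm
  have hMχ₀ : ∀ χ, M χ χ₀ ≠ 0 := by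
    intro χ h0
    have h1 : (M χ χ₀ : ℂ) = uu D (χ : G → ℂ) * SS p (χ : G → ℂ) χ₀ := by
      rw [hM, card_mul_B D (hirr χ) (fun g y => (hirr χ₀).conj g y)]
    rw [h0, Int.cast_zero] at h1
    have h2 := (mul_eq_zero.mp h1.symm).resolve_left (uu_ne (hirr χ))
    have h3 := red_SS (O := O) (p := p) (hirr χ) (hirr χ₀)
    rw [h2, red_zero, sr_block hB (hmem χ) hχ₀] at h3
    exact hus χ₀ hχ₀ne h3.symm
  have hpR : (0 : ℤ) < p := by exact_mod_cast hp.pos
  have hqpos : (0 : ℤ) < (p : ℤ) ^ (d + 1) := by positivity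
  -- characters of positive height
  have hnn := diag_nonneg hqpos M hsym hsq
  have hrow : ∀ χ, u χ = 0 → M χ χ ^ 2 + M χ χ₀ ^ 2 ≤ p ^ (d + 1) * M χ χ := by
    intro χ h0
    have hne : χ ≠ χ₀ := by
      intro h
      rw [h] at h0
      exact hχ₀ne h0
    rw [← diag_sq M hsym hsq χ]
    calc M χ χ ^ 2 + M χ χ₀ ^ 2 = ∑ j ∈ {χ, χ₀}, M χ j ^ 2 := by
          rw [Finset.sum_pair hne]
      _ ≤ _ := Finset.sum_le_sum_of_subset_of_nonneg (Finset.subset_univ _)
          fun j _ _ => sq_nonneg _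
  have hsqpos : ∀ χ, 0 < M χ χ₀ ^ 2 := fun χ => by
    have := hMχ₀ χ
    positivity
  have hlt : ∀ χ, u χ = 0 → 0 < M χ χ ∧ M χ χ < p ^ (d + 1) := by
    intro χ h0
    have h1 := hrow χ h0
    have h2 := hsqpos χ
    have h3 := hnn χ
    constructor
    · rcases h3.lt_or_eq with h | h
      · exact h
      · rw [← h, mul_zero] at h1
        nlinarith
    · by_contra hcon
      push Not at hcon
      nlinarith
  have hp2 : ∀ χ, u χ = 0 → (p : ℤ) ^ 2 ∣ M χ χ := by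
    intro χ h0
    obtain ⟨n, -, hn⟩ := IsIrr.deg (hirr χ)
    have hG0 : Nat.card G ≠ 0 := Nat.card_pos.ne'
    have huu : uu D (χ : G → ℂ) = ((n * Nat.card D : ℕ) : ℂ) / (Nat.card G : ℕ) := by
      unfold uu
      rw [← hn]
      push_cast
      ring
    have h1 : uu D (χ : G → ℂ) / p ∈ O := by
      have h2 := Pool.Agent.N20.uu_mem hpO hB hD (hmem χ)
      rw [huu] at h2 ⊢
      have h3 : red O (((n * Nat.card D : ℕ) : ℂ) / (Nat.card G : ℕ)) = 0 := by
        rw [← huu]; exact h0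
      exact div_p_mem hpO hG0 h2 h3
    have hMeq : (M χ χ : ℂ) = p * (uu D (χ : G → ℂ) / p * SS p (χ : G → ℂ) χ) := by
      rw [hM, card_mul_B D (hirr χ) (fun g y => (hirr χ).conj g y)]
      field_simp
    have hS := SS_mem (p := p) (O := O) (hirr χ) (hirr χ)
    have h2 : red O ((M χ χ : ℤ) : ℂ) = 0 := by
      rw [hMeq, red_mul (natCast_mem' p) (O.mul_mem _ _ h1 hS), red_eq_zero hpO, zero_mul]
    rw [red_intCast, CharP.intCast_eq_zero_iff (RF O) p] at h2
    obtain ⟨c, hc⟩ := h2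
    have h3 : (c : ℂ) = uu D (χ : G → ℂ) / p * SS p (χ : G → ℂ) χ := by
      rw [hc] at hMeq
      push_cast at hMeq
      exact mul_left_cancel₀ hp0 hMeq
    have h4 : red O (c : ℂ) = 0 := by
      rw [h3, red_mul h1 hS, red_SS (hirr χ) (hirr χ), sr_block hB (hmem χ) hχ₀]
      have h5 : s χ = 0 := by rw [hseq, h0, zero_mul]
      have h6 : sr p O (χ₀ : G → ℂ) (χ : G → ℂ) = 0 := h5
      rw [h6, mul_zero]
    rw [red_intCast, CharP.intCast_eq_zero_iff (RF O) p] at h4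
    obtain ⟨e, he⟩ := h4
    exact ⟨e, by rw [hc, he]; ring⟩
  have hpos : ∀ χ, u χ = 0 → (p : ℤ) ^ 2 ≤ M χ χ := fun χ h0 =>
    Int.le_of_dvd (hlt χ h0).1 (hp2 χ h0)
  have hcard : Nat.card B = Fintype.card {χ // χ ∈ XB B} := by
    rw [← Nat.card_eq_fintype_card]
    exact Nat.card_congr (Equiv.subtypeEquivRight fun χ => (mem_XB hB.irr).symm)
  rw [hcard] at hm ⊢
  rcases hm with hm | hm
  · subst hm
    exact abs_bound (d := d + 1) (l := lB p B) hp M hsym hsq htr u s hredM hus ⟨χ₀, hχ₀ne⟩ hpos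
      hcount
  · -- the complementary matrix
    set M' : {χ // χ ∈ XB B} → {χ // χ ∈ XB B} → ℤ :=
      fun χ ψ => (if χ = ψ then (p : ℤ) ^ (d + 1) else 0) - M χ ψ with hM'
    have hpz : (((p : ℤ) ^ (d + 1) : ℤ) : RF O) = 0 := by
      push_cast
      rw [CharP.cast_eq_zero, zero_pow (Nat.succ_ne_zero d)]
    have hlk : lB p B ≤ Fintype.card {χ // χ ∈ XB B} := by
      rw [← hcard]
      exact lB_le hB
    refine abs_bound (d := d + 1) (l := m) hp M' ?_ ?_ ?_ (fun χ => - u χ) s ?_ ?_ ?_ ?_ ?_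
    · intro χ ψ
      simp only [hM']
      rw [hsym χ ψ]
      by_cases h : χ = ψ
      · rw [if_pos h, if_pos h.symm]
      · rw [if_neg h, if_neg (Ne.symm h)]
    · intro χ ψ
      simp only [hM']
      have h1 : ∀ φ, ((if χ = φ then (p : ℤ) ^ (d + 1) else 0) - M χ φ) *
          ((if φ = ψ then (p : ℤ) ^ (d + 1) else 0) - M φ ψ) =
          (if χ = φ then (p : ℤ) ^ (d + 1) * ((if φ = ψ then (p : ℤ) ^ (d + 1) else 0) - M φ ψ)
            else 0) - (if φ = ψ then M χ φ * (p : ℤ) ^ (d + 1) else 0) + M χ φ * M φ ψ := by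
        intro φ
        split_ifs <;> ring
      rw [Finset.sum_congr rfl fun φ _ => h1 φ, Finset.sum_add_distrib, Finset.sum_sub_distrib,
        Finset.sum_ite_eq Finset.univ χ, Finset.sum_ite_eq' Finset.univ ψ, hsq,
        if_pos (Finset.mem_univ _), if_pos (Finset.mem_univ _)]
      ring
    · simp only [hM', if_true]
      rw [Finset.sum_sub_distrib, htr, Finset.sum_const, Finset.card_univ, nsmul_eq_mul, hm,
        Nat.cast_sub hlk]
      ring
    · intro χ ψ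
      simp only [hM']
      rw [Int.cast_sub, hredM]
      by_cases h : χ = ψ
      · rw [if_pos h, hpz]; ring
      · rw [if_neg h, Int.cast_zero]; ring
    · intro χ h
      exact hus χ (by simpa using h)
    · exact ⟨χ₀, by simpa using hχ₀ne⟩
    · intro χ h
      have h0 : u χ = 0 := by simpa using h
      simp only [hM', if_true]
      obtain ⟨h1, h2⟩ := hlt χ h0
      have h3 := hpos χ h0
      have h4 : (p : ℤ) ^ 2 < p ^ (d + 1) := lt_of_le_of_lt h3 h2
      have h5 : 2 < d + 1 := by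
        by_contra hcon
        push Not at hcon
        have : (p : ℤ) ^ (d + 1) ≤ p ^ 2 := pow_le_pow_right₀ (by exact_mod_cast hp.one_lt.le) hcon
        omega
      have h6 : (p : ℤ) ^ 2 ∣ p ^ (d + 1) := pow_dvd_pow _ h5.le
      exact Int.le_of_dvd (by omega) (dvd_sub h6 (hp2 χ h0))
    · intro z hz χ h0
      have hz' : (∑ j, (z j : RF O) * s j) ≠ 0 := right_ne_zero_of_mul hz
      have h1 : ∑ ψ, M χ ψ * z ψ = p ^ (d + 1) * z χ := by
        have h2 : ∑ j, M' χ j * z j = p ^ (d + 1) * z χ - ∑ ψ, M χ ψ * z ψ := by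
          simp only [hM', sub_mul, ite_mul, zero_mul]
          rw [Finset.sum_sub_distrib, Finset.sum_ite_eq Finset.univ χ,
            if_pos (Finset.mem_univ _)]
        rw [h2] at h0
        linarith
      have h2 := hMz z χ
      rw [h1] at h2
      have hYne : red O (∑ ψ : {χ // χ ∈ XB B}, (z ψ : ℂ) * SS p (χ : G → ℂ) ψ) ≠ 0 := by
        rw [hYred]; exact hz'
      by_cases hux : u χ = 0
      · -- positive height
        obtain ⟨hYm, hYi, hY0⟩ := inv_mem_of_red_ne hYne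
        set Y : ℂ := ∑ ψ : {χ // χ ∈ XB B}, (z ψ : ℂ) * SS p (χ : G → ℂ) ψ with hY
        have h3 : (M χ χ₀ : ℂ) = uu D (χ : G → ℂ) * SS p (χ : G → ℂ) χ₀ := by
          rw [hM, card_mul_B D (hirr χ) (fun g y => (hirr χ₀).conj g y)]
        have h4 : (M χ χ₀ : ℂ) / (p : ℂ) ^ (d + 1) = (z χ : ℂ) * SS p (χ : G → ℂ) χ₀ * Y⁻¹ := by
          have h5 : uu D (χ : G → ℂ) = (p : ℂ) ^ (d + 1) * z χ * Y⁻¹ := by
            push_cast at h2
            rw [h2]
            field_simp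
          rw [h3, h5]
          field_simp
        have h5 : (M χ χ₀ : ℂ) / (p : ℂ) ^ (d + 1) ∈ O := by
          rw [h4]
          exact O.mul_mem _ _ (O.mul_mem _ _ (intCast_mem' _) (SS_mem (hirr χ) (hirr χ₀))) hYi
        have h6 := int_div_pow hpO h5
        have h7 := hrow χ hux
        obtain ⟨h8, h9⟩ := hlt χ hux
        have h10 : (p : ℤ) ^ (d + 1) ≤ |M χ χ₀| :=
          Int.le_of_dvd (abs_pos.mpr (hMχ₀ χ)) ((dvd_abs _ _).mpr h6)
        have h11 : ((p : ℤ) ^ (d + 1)) ^ 2 ≤ M χ χ₀ ^ 2 := by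
          rw [← sq_abs (M χ χ₀)]
          exact pow_le_pow_left₀ hqpos.le h10 2
        nlinarith
      · -- height zero
        have h3 := congrArg (red O) h2
        rw [red_mul (Pool.Agent.N20.uu_mem hpO hB hD (hmem χ)) (hYmem z χ), red_intCast] at h3
        push_cast at h3
        rw [CharP.cast_eq_zero, zero_pow (Nat.succ_ne_zero d), zero_mul] at h3
        exact mul_ne_zero hux hYne h3.symm

/-- **The theorem.** -/
theorem block_final {p : ℕ} (hp : p.Prime) {O : ValuationSubring ℂ}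
    (hpO : (p : ℂ) ∈ O.nonunits) {D : Subgroup G} {B : Set (G → ℂ)} (hB : IsBlock O B)
    (hD : IsDefectGroup p O B D) (m : ℕ) (hm : m = lB p B ∨ m = Nat.card B - lB p B) :
    (Nat.card B : ℝ) ≤ Nat.card D *
      max 1 (min ((m : ℝ) / (p + 1)) (max (√(8 * m / p)) (m / p ^ 2))) := by
  haveI : Fact p.Prime := ⟨hp⟩
  obtain ⟨d, hd⟩ := IsPGroup.iff_card.mp (Pool.Agent.N20.defect_pgroup hD)
  rcases d with _ | d
  · -- defect zero
    have h1 : (p + 1) * Nat.card B ≤ Nat.card D * max (p + 1) (lB p B) := by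
      obtain ⟨χ₁, hχ₁⟩ := hB.nonempty
      have h2 := block_bound hp hpO hB hD
      have h3 := lB_le (p := p) hB
      rw [hd, pow_zero, one_mul] at h2 ⊢
      rcases le_or_gt (lB p B) p with h4 | h4
      · rw [max_eq_left h4] at h2
        have h5 : Nat.card B ≤ 1 := by
          have : p * Nat.card B ≤ p * 1 := by rw [mul_one]; exact h2
          exact Nat.le_of_mul_le_mul_left this hp.pos
        calc (p + 1) * Nat.card B ≤ (p + 1) * 1 := Nat.mul_le_mul_left _ h5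
          _ = p + 1 := mul_one _
          _ ≤ _ := le_max_left _ _
      · exfalso
        rw [max_eq_right h4.le] at h2
        have h5 := hp.two_le
        nlinarith
    have h2 : Nat.card B ≤ 1 := by
      have h3 := lB_le (p := p) hB
      rw [hd, pow_zero, one_mul] at h1
      have h5 := hp.two_le
      rcases le_or_gt (lB p B) (p + 1) with h4 | h4
      · rw [max_eq_left h4] at h1
        have : (p + 1) * Nat.card B ≤ (p + 1) * 1 := by rw [mul_one]; exact h1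
        exact Nat.le_of_mul_le_mul_left this (Nat.succ_pos p)
      · exfalso
        rw [max_eq_right h4.le] at h1
        nlinarith
    rw [hd, pow_zero, Nat.cast_one, one_mul]
    exact le_trans (by exact_mod_cast h2) (le_max_left _ _)
  · have h3 := block_two hp hpO hB hD hd m hm
    rw [hd]
    push_cast
    exact h3

end Pool.Agent.Helper98.KB
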